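import Pool.Agent.J6H91.SN.Main

/-!
# MP_1209e6_ag, Q1 (Campana): correspondences between special varieties and varieties given by
# nested sums of high powers

`Z ⊆ ℙⁿ` is given by forms `F e` which are nested sums of at most `s` high powers, with at most `h + 1`
levels, of linear forms, or of monomials (`HighTowers`, `IsNested`, `NestedIn IsMono`): sums of at
most `s` terms `c g ^ m`, `m ≥ N`, where the `g` are linear forms (monomials) or again such sums, and so
on. The exponents satisfy `N ≥ 4 (D + 1) (h + 1) 10 ^ (2 s) (r + 1) ^ 7 r!`. Nothing is assumed on the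
singularities of `Z`.

(1) Multi-valued maps to `Z`. `X` is a projective variety, with function field `L` and generic point
`x`, which is special and of dimension `d ≤ D`, or Brody-special of any dimension. A rational map
from `X` to `Z` with at most `r` values, with arbitrary branching, is a point `y` of `Z` over an extension
`K'` of `L` of degree at most `r`. Then `Z` contains the smallest linear space (`Hull`),
respectively the smallest variety given by equations `x ^ α = c x ^ β` (`BinHull`), which contains
all values of the map. If an irreducible component `V` of `Z`, with function field `K`, is dominated by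
such a map then it is a linear subspace (`IsLinear`), respectively the closure of an orbit of a torus
of diagonal matrices (`TorusOrbit`).

(2) Images of `Z`. `V` is an irreducible component of `Z` of dimension `w ≤ D`, and `V ⇢ X` is a
dominant rational map of degree at most `r` to a projective variety. Then the following are
equivalent: `X` is special; `X` is Brody-special; `X` is unirational; `V` is special; `V` is rational;
`V` is a linear subspace or the closure of an orbit of a torus of diagonal matrices.

In the starting files: the case of maps of degree one in (2) (`TH710/SP`, `X333/MS`), and, if there is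
only one level, special implies unirational in (2) (`MP_9410e4_ag/DominatedSpecial`).

The proof of (1): on the splitting field of the extension `K'` the circuits of all levels of the sum
form a family of small forms, which is stable under the Galois group; if some ratio in it is not
constant then the product of the wedge products of the logarithmic differentials of the ratios over
all elements of the Galois group, for maximal algebraically independent families of ratios, descends
to a Bogomolov sheaf on `X`. If `X` is Brody-special then `K'` embeds in an extension of degree at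
most `r` of the field of meromorphic functions, and Cartan's theorem for algebroid functions
applies.
-/

set_option autoImplicit false

namespace Pool.Agent.Results.MP_1209e6_ag.DominatedByNested

open Pool.Agent.W602.GT (val coords IsForm SubVar IsComponent Special BrodySpecial)
open Pool.Agent.TH710.ND (IsNested NestedIn IsMono HighTowers)
open Pool.Agent.TH710.SP (Hull IsLinear)
open Pool.Agent.TH710.WH (PurelyTranscendental)
open Pool.Agent.X333.MS (TorusOrbit)
open Pool.Agent.W619.TW (IsUnirational)
open Pool.Agent.J6H91.SN (BinHull)

theorem result {n : ℕ} {ι : Type} {F : ι → MvPolynomial (Fin (n + 1)) ℂ} {s N h r D : ℕ}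
    (hF : HighTowers s N h F)
    (hN : (D + 1) * ((h + 1) * (4 * 10 ^ (2 * s) * (r + 1) ^ 7 * r.factorial)) ≤ N) :
    -- (1) multi-valued maps from special varieties
    (∀ (L K' : Type) [Field L] [Field K'] [Algebra ℂ L] [Algebra ℂ K'] [Algebra L K']
      [IsScalarTower ℂ L K'] [FiniteDimensional L K'], Module.finrank L K' ≤ r →
      ∀ (d M : ℕ) (x : Fin (M + 1) → L), x ≠ 0 → coords ℂ x = ⊤ → Algebra.trdeg ℂ L = d →
      (d ≤ D ∧ Special ℂ L d (fun _ => False)) ∨ BrodySpecial (∅ : Set (Fin (M + 1))) x →
      (∀ y : Fin (n + 1) → K', y ≠ 0 → (∀ e, val y (F e) = 0) →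
        ((∀ e, IsNested s N h (F e)) → ∀ z ∈ Hull ℂ y, ∀ e, val z (F e) = 0) ∧
        ((∀ e, IsForm (F e) ∧ NestedIn IsMono s N h (F e)) →
          ∀ z ∈ BinHull ℂ y, ∀ e, val z (F e) = 0)) ∧
      ∀ (K : Type) [Field K] [Algebra ℂ K] (w : ℕ) (y : Fin (n + 1) → K), SubVar F K w y →
        IsComponent F y → (K →ₐ[ℂ] K') → IsLinear ℂ y ∨ TorusOrbit ℂ w y) ∧
    -- (2) images
    (∀ (K L : Type) [Field K] [Field L] [Algebra ℂ K] [Algebra ℂ L] [Algebra L K]
      [IsScalarTower ℂ L K] [FiniteDimensional L K], Module.finrank L K ≤ r →
      ∀ (w : ℕ) (y : Fin (n + 1) → K), w ≤ D → SubVar F K w y → IsComponent F y →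
      ∀ (M : ℕ) (x : Fin (M + 1) → L), x ≠ 0 → coords ℂ x = ⊤ →
      [Special ℂ L w (fun _ => False), BrodySpecial (∅ : Set (Fin (M + 1))) x,
        IsUnirational ℂ L w, Special ℂ K w (fun _ => False), PurelyTranscendental ℂ K,
        IsLinear ℂ y ∨ TorusOrbit ℂ w y].TFAE) := by
  refine ⟨?_, ?_⟩
  · intro L K' _ _ _ _ _ _ _ hr d M x hx hgen hdL hX
    have key : ∀ (Lf : MvPolynomial (Fin (n + 1)) ℂ → Prop),
        (∀ i, NestedIn Lf s N h (F i)) → ∀ z : Fin (n + 1) → K',
        (∀ i, MvPolynomial.aeval z (F i) = 0) → Pool.Agent.J6H91.SN.KEnv Lf F z := by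
      rcases hX with ⟨hd, hs⟩ | hb
      · exact Pool.Agent.J6H91.SN.key_special (L := L) hd hN hr hdL hs
      · exact Pool.Agent.J6H91.SN.key_brody (L := L) (D := D) hN hr hx hgen hb
    exact ⟨fun y hy0 hmem => Pool.Agent.J6H91.SN.hull_of_key key hy0 hmem,
      fun K _ _ w y hy hcomp φ => Pool.Agent.J6H91.SN.struct_of_key key hF hy hcomp φ⟩
  · intro K L _ _ _ _ _ _ _ hr w y hw hy hcomp M x hx hgen
    exact Pool.Agent.J6H91.SN.dom_tfae hF hw hN hy hcomp hr hx hgen

end Pool.Agent.Results.MP_1209e6_ag.DominatedByNested
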