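import Pool.Agent.J6H96.FE.Fin
import Pool.Agent.TH8.TEN.Special

/-!
MP_1209e6_ag, Q1, the implication from (ii) to (i): a projective variety with a Zariski-dense entire
curve given by linear functional equations with polynomial coefficients, for an affine map `σ` of
the plane of infinite order, is special, and it has no holomorphic tensor differentials.

These are the linear `q`-difference equations (`σ z = q z`, `q` not a root of unity) and the linear
difference equations (`σ z = z + 1`). For difference equations we suppose that the entire functions
have minimal exponential type. A condition on the growth cannot be avoided: theta functions with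
period `1` satisfy `g (z + 1) = g z` and give Zariski-dense entire curves in elliptic curves.

Proof. Let `t_m` be an orbit of `σ` (for `|q| > 1` of the inverse map) on which the functions in
question are determined by their values: by the identity theorem if the orbit is bounded, by the
maximum principle if `σ` is a translation and the functions have minimal exponential type. Along the
orbit the equations are linear recurrences, with a difference Galois group over the rational
functions of `t_m`; we work in the field of the sequences modulo a prime ideal. Each derivation of
this field which kills `t_m` and moves the point `f (t_m)` in a given direction can be replaced by a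
one-parameter subgroup of the Galois group which moves the point in this direction, hence by a
rational curve (`FE/Dir.lean`, `FE/FlowS.lean`). So a tensor differential on the closure of
`(z, f z)` is `u(z) (dz)^p`, `u` is algebraic over the rational functions, and meromorphic on the
plane, so it is rational; it has no poles, since the curve is a section over each point of the plane
and it vanishes at infinity (`FE/TenF.lean`, after `Pool/Agent/TH8/TEN`).
-/

set_option autoImplicit false

namespace Pool.Agent.Results.MP_1209e6_ag.FunctionalEquationSpecial

open MvPolynomial Set
open Pool.Agent.TH143 Pool.Agent.TH143.GT Pool.Agent.TH8.TEN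
open Pool.Agent.J6H96.FE (aff AffHol MinType)

/-- Let `X` be the projective variety with the ideal `p`, the function field `K` and the generic
point `y`. Let `σ z = q z + c`, `q ≠ 0`, be an affine map of the plane of infinite order. Let `f` be
an entire curve in `X`, given by entire functions that satisfy nontrivial linear functional equations
`∑ a_k(z) f_j(σ^k z) = 0` with polynomial coefficients, and Zariski-dense in `X`; if `σ` is a
translation (`q = 1`), we suppose that these functions have minimal exponential type.

(1) All tensor differentials of positive degree on the smooth projective models of `X` vanish.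

(2) No subsheaf of rank one of a sheaf of `r`-forms, `r > 0`, has a positive power with a nonzero
section.

(3) `X` is special in the sense of Campana. -/
theorem _root_.Pool.Agent.Results.MP_1209e6_ag.FunctionalEquationSpecial.result {n : ℕ}
    (p : Ideal (MvPolynomial (Fin (n + 1)) ℂ)) (K : Type) [Field K]
    [Algebra ℂ K] (w : ℕ) (y : Fin (n + 1) → K) (hy : FunField p 1 K w y)
    (q c : ℂ) (hq : q ≠ 0) (hinf : ∀ m : ℕ, 0 < m → (aff q c)^[m] ≠ id)
    (f : ℂ → Fin (n + 1) → ℂ) (hf : ∀ j, Differentiable ℂ (fun z => f z j))
    (hX : ∀ z, ∀ H ∈ p, eval (f z) H = 0) (hlin : ∀ j, AffHol q c (fun z => f z j))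
    (hgrow : q = 1 → ∀ j, MinType (fun z => f z j)) (hd : ZDense p f univ) :
    (∀ r : ℕ, 0 < r → ∀ θ : MultilinearMap K (fun _ : Fin r => Derivation ℂ K K) K,
      HolTensor w θ → θ = 0) ∧
    (∀ r : ℕ, 0 < r → ∀ ω : Derivation ℂ K K [⋀^Fin r]→ₗ[K] K, ω ≠ 0 →
      ∀ m : ℕ, 0 < m → ∀ g : K, PowSec w ω m g → g = 0) ∧
    Special K w := by
  have h1 : ∀ r : ℕ, 0 < r → ∀ θ : MultilinearMap K (fun _ : Fin r => Derivation ℂ K K) K,
      HolTensor w θ → θ = 0 := fun r hr θ hθ =>
    Pool.Agent.J6H96.FE.tensor_vanish_aff hq hinf (hy.genPt (fun z _ => hX z) hd) hf hlin hgrow
      hr hθ
  exact ⟨h1, fun r hr ω hω m hm g hg => powSec_zero h1 hr hω hm hg, special_of_tensor h1⟩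

end Pool.Agent.Results.MP_1209e6_ag.FunctionalEquationSpecial
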