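import Mathlib
import Pool.Agent.J6H55.SB.Main

/-!
# Campana's conjecture and families of rational maps with many preperiodic points

`X` is a complex projective variety, given by its function field `K` and the homogeneous coordinates `x` of its
generic point (`coords ℂ x = ⊤`: their ratios generate `K`). `p j / q j`, `j` in a finite set `J`, are rational
maps of the projective line over `K` of degrees `d j ≥ 2` (families of rational maps over an open subset of
`X`), the `j`-th with at least `B₀ (d j)` preperiodic points in `P^1(K)` (preperiodic rational sections).

`Special ℂ K w ∅` (`Pool/Agent/W602/GT/SpecDefs.lean`) is Campana's definition: `X` has no Bogomolov sheaf;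
`BrodySpecial ∅ x` (`Pool/Agent/W602/GT/BroDefs.lean`): there is an entire curve in `X` with Zariski dense image;
`Isotrivial ℂ d p q` (`Pool/Agent/Q103/EC/Fam.lean`): the map is conjugate, over an algebraic closure of `K`, to
a map with complex coefficients.

`JointModuli d p q E` (`Pool/Agent/J6H55/MF/Defs.lean`): `E` is the function field of the base `Y` of the Stein
factorisation `X ⇢ Y` of the joint moduli map `X ⇢ ∏ M_{d j}`: it is algebraically closed in `K`, all the maps
are defined over an algebraic closure of `E` up to conjugation, and `E` is algebraic over all fields with
this property. `IsModel x e y g τ`: `y` is the generic point of a projective model `Y`, and the forms `g` define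
the rational map `X ⇢ Y`. `SubOf ℂ x z`: `z` is the generic point of a closed subvariety `V` of `X`, with the
function field `F`.

Theorem.

1. If `X` is special, or Brody-special, then all the maps are isotrivial. So if one of them is not isotrivial
   then `X` is neither special nor Brody-special, and Campana's conjecture (Q1) holds for `X`.
2. If `X ⇢ B` is any dominant rational map, with `F` the function field of `B`, whose generic fibre is special
   (for instance the core map of Campana), then all the maps are defined over an algebraic closure of `F` up to
   conjugation: the joint moduli map factors through `X ⇢ B` (up to a finite cover).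
3. There is a proper closed subset `Z = {R = 0}` of `X` such that all special and all Brody-special closed
   subvarieties of `X` which are not contained in `Z` lie in fibres of `X ⇢ Y`.
4. If the joint moduli map is generically finite (`K` is algebraic over `E`) then there is a proper closed
   subset `Z` of `X` such that for all closed subvarieties `V` of `X` which are not contained in `Z`, of
   any dimension `w`: `V` is special if and only if it is Brody-special, if and only if it is a point.

This is the analogue for dynamical systems of the isotriviality of families of canonically polarised
varieties over special varieties (Campana's isotriviality conjecture, Taji). The varieties in (1) to (4) are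
all varieties of any dimension with function fields over which there are such maps; nothing else is assumed.

Proof. By the arguments of helper41 and helper103 for one map (projects GT, EC, KO, VR), carried out for
several maps and over any field of characteristic zero (`Pool/Agent/J6H55`), the cross ratios of the
preperiodic points give symmetric differentials and pluricanonical forms on `Y`: it is a point or of
general type, and hyperbolic modulo a proper closed subset, and the images in `Y` of closed subvarieties of
`X`, off `Z`, are points or of general type. A variety which dominates a variety of general type of positive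
dimension has a Bogomolov sheaf (`Pool.Agent.Y216.SV.bog_of_sub`). For (2) the same is done over `F`.
-/

set_option autoImplicit false

namespace Pool.Agent.Results.MP_1209e6_ag.IsotrivialOverSpecial

open Polynomial
open Pool.Agent.W602.GT (IsForm val coords Special BrodySpecial)
open Pool.Agent.TH466.QG (SubOf)
open Pool.Agent.Q103.EC (prePer Isotrivial)
open Pool.Agent.J6H55.MF (JointModuli IsModel)

/-- Rational maps with many preperiodic points over the function fields of special, or Brody-special,
varieties are isotrivial; special and Brody-special subvarieties of varieties with such maps. -/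
theorem result : ∃ B₀ : ℕ → ℕ, ∀ (K : Type) [Field K] [Algebra ℂ K] (M : ℕ)
    (x : Fin (M + 1) → K), x ≠ 0 → coords ℂ x = ⊤ →
    ∀ (J : Type) [Fintype J] (d : J → ℕ) (p q : J → K[X]), (∀ j, 2 ≤ d j) →
    (∀ j, IsCoprime (p j) (q j)) → (∀ j, max (p j).natDegree (q j).natDegree = d j) →
    (∀ j, (B₀ (d j) : ℕ∞) ≤ (prePer (d j) (p j) (q j)).encard) →
    (∀ w : ℕ, Algebra.trdeg ℂ K = w →
      (Special ℂ K w (fun _ => False) ∨ BrodySpecial (∅ : Set (Fin (M + 1))) x) →
      ∀ j, Isotrivial ℂ (d j) (p j) (q j)) ∧
    ∃ E : IntermediateField ℂ K, JointModuli d p q E ∧
      (∀ (F : IntermediateField ℂ K) (w : ℕ), Algebra.trdeg F K = w →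
        Special F K w (fun _ => False) → ∀ y : K, y ∈ E → IsAlgebraic F y) ∧
      (∃ (N e : ℕ) (y : Fin (N + 1) → E) (g : Fin (N + 1) → MvPolynomial (Fin (M + 1)) ℂ) (τ : K),
        IsModel x e y g τ) ∧
      (∀ (N e : ℕ) (y : Fin (N + 1) → E) (g : Fin (N + 1) → MvPolynomial (Fin (M + 1)) ℂ) (τ : K),
        IsModel x e y g τ →
        ∃ R : MvPolynomial (Fin (M + 1)) ℂ, IsForm R ∧ val x R ≠ 0 ∧
          ∀ (F : Type) [Field F] [Algebra ℂ F] (w : ℕ) (z : Fin (M + 1) → F), SubOf ℂ x z →
            val z R ≠ 0 → Algebra.trdeg ℂ F = w →
            (Special ℂ F w (fun _ => False) ∨ BrodySpecial (∅ : Set (Fin (M + 1))) z) →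
            (∃ i, val z (g i) ≠ 0) ∧ coords ℂ (fun i => val z (g i)) = ⊥) ∧
      (Algebra.IsAlgebraic E K →
        ∃ R : MvPolynomial (Fin (M + 1)) ℂ, IsForm R ∧ val x R ≠ 0 ∧
        ∀ (F : Type) [Field F] [Algebra ℂ F] (w : ℕ) (z : Fin (M + 1) → F), SubOf ℂ x z →
          val z R ≠ 0 → Algebra.trdeg ℂ F = w →
          [Special ℂ F w (fun _ => False), BrodySpecial (∅ : Set (Fin (M + 1))) z, w = 0].TFAE) :=
  Pool.Agent.J6H55.SB.special_main

end Pool.Agent.Results.MP_1209e6_ag.IsotrivialOverSpecial
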